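import Pool.Agent.Work.MP_4b551e_an.Stmts29

/-!
# MP_4b551e_an: item Col1 (helper59)
-/

open MeasureTheory Set Metric
open scoped ENNReal NNReal Pointwise RealInnerProductSpace

namespace Pool.Agent.Robin

namespace Col1

/-- The supremum of a nonempty open set bounded above is a frontier point. -/
theorem csSup_mem_frontier {T : Set ℝ} (ho : IsOpen T) (hne : T.Nonempty) (hb : BddAbove T) :
    sSup T ∈ frontier T := by
  rw [frontier, ho.interior_eq]
  refine ⟨csSup_mem_closure hne hb, fun h => ?_⟩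
  obtain ⟨ε, hε, hsub⟩ := Metric.isOpen_iff.1 ho _ h
  have : sSup T + ε / 2 ∈ T := hsub (by
    rw [Metric.mem_ball, Real.dist_eq, add_sub_cancel_left, abs_of_pos (by positivity)]
    linarith)
  have := le_csSup hb this
  linarith

theorem vol_le {T : Set ℝ} {a b : ℝ} (h : T ⊆ Icc a b) : volume T ≤ ENNReal.ofReal (b - a) := by
  calc volume T ≤ volume (Icc a b) := measure_mono h
    _ = ENNReal.ofReal (b - a) := Real.volume_Icc

/-- The integrand. -/
noncomputable def F (k : ℝ) (v : ℝ → ℝ) (s : ℝ) : ℝ := (deriv v s) ^ 2 + k ^ 2 * ((v s) ^ 2 - 1)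

theorem F_nonneg {k : ℝ} {v : ℝ → ℝ} (hv : ∀ s, 1 ≤ v s) (s : ℝ) : 0 ≤ F k v s := by
  have : 1 ≤ (v s) ^ 2 := by nlinarith [hv s]
  unfold F
  nlinarith [sq_nonneg (deriv v s), sq_nonneg k, mul_nonneg (sq_nonneg k) (sub_nonneg.2 this)]

theorem F_meas {k : ℝ} {v : ℝ → ℝ} (hL : ∃ K : ℝ≥0, LipschitzWith K v) : Measurable (F k v) := by
  obtain ⟨K, hK⟩ := hL
  unfold F
  exact ((measurable_deriv v).pow_const 2).add
    (((hK.continuous.measurable.pow_const 2).sub_const 1).const_mul _)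

theorem F_int {k : ℝ} {v : ℝ → ℝ} (hL : ∃ K : ℝ≥0, LipschitzWith K v) (a b : ℝ) :
    IntervalIntegrable (F k v) volume a b := by
  have hm := F_meas (k := k) hL
  obtain ⟨K, hK⟩ := hL
  unfold F at hm ⊢
  have h1 : IntervalIntegrable (fun s => k ^ 2 * ((v s) ^ 2 - 1)) volume a b :=
    Continuous.intervalIntegrable (by
      have := hK.continuous
      fun_prop) a b
  have h2 : IntervalIntegrable (fun s => (deriv v s) ^ 2) volume a b := by
    refine (intervalIntegrable_const (c := (K : ℝ) ^ 2)).mono_fun'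
      ((measurable_deriv v).pow_const 2).aestronglyMeasurable ?_
    refine Filter.Eventually.of_forall fun s => ?_
    have := norm_deriv_le_of_lipschitz hK (x₀ := s)
    show ‖(deriv v s) ^ 2‖ ≤ (K : ℝ) ^ 2
    rw [norm_pow]
    exact pow_le_pow_left₀ (norm_nonneg _) this 2
  exact h2.add h1

theorem int_le {k σ : ℝ} {v : ℝ → ℝ} {T : Set ℝ} (hL : ∃ K : ℝ≥0, LipschitzWith K v)
    (hv : ∀ s, 1 ≤ v s) (hσ : 0 ≤ σ) (hT : Ioo 0 σ ⊆ T) :
    ENNReal.ofReal (∫ t in (0 : ℝ)..σ, F k v t) ≤ ∫⁻ s in T, ENNReal.ofReal (F k v s) := by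
  rw [intervalIntegral.integral_of_le hσ]
  have hi : IntegrableOn (F k v) (Ioc 0 σ) volume :=
    (intervalIntegrable_iff_integrableOn_Ioc_of_le hσ).1 (F_int hL 0 σ)
  rw [ofReal_integral_eq_lintegral_ofReal hi (Filter.Eventually.of_forall (F_nonneg hv))]
  rw [setLIntegral_congr (Ioo_ae_eq_Ioc (a := (0 : ℝ)) (b := σ)).symm]
  exact lintegral_mono_set hT

end Col1

open Col1 in
theorem pr_Col1 (hc : T_COL) (ht : T_Theta) : T_Col1 := by
  intro k κ S v T hk1 hk2 hκ0 hκ1 hS hκS hTo hTS hL hv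
  have hbdd : BddAbove T := ⟨S, fun x hx => (hTS hx).2⟩
  have hterm : ∀ s, (1 : ℝ≥0∞) ≤ ENNReal.ofReal ((v s) ^ 2) := by
    intro s
    rw [← ENNReal.ofReal_one]
    apply ENNReal.ofReal_le_ofReal
    nlinarith [hv s]
  have hκvol : ∀ A : Set ℝ, A ⊆ Icc 0 S → ENNReal.ofReal κ * volume A ≤ 1 := by
    intro A hA
    calc ENNReal.ofReal κ * volume A ≤ ENNReal.ofReal κ * ENNReal.ofReal (S - 0) := by
          gcongr
          exact vol_le hA
      _ = ENNReal.ofReal (κ * S) := by rw [sub_zero, ENNReal.ofReal_mul hκ0]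
      _ ≤ ENNReal.ofReal 1 := ENNReal.ofReal_le_ofReal (by linarith)
      _ = 1 := ENNReal.ofReal_one
  have hTI : T ⊆ Icc 0 S := fun x hx => ⟨(hTS hx).1.le, (hTS hx).2⟩
  constructor
  · rcases T.eq_empty_or_nonempty with h | hne
    · simp [h]
    · have hfr := csSup_mem_frontier hTo hne hbdd
      have hpos : 0 < sSup T := by
        obtain ⟨x, hx⟩ := hne
        exact lt_of_lt_of_le (hTS hx).1 (le_csSup hbdd hx)
      calc ENNReal.ofReal κ * volume T ≤ 1 := hκvol T hTI
        _ ≤ ENNReal.ofReal ((v (sSup T)) ^ 2) := hterm _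
        _ ≤ ∑' s : (frontier T ∩ Ioi 0 : Set ℝ), ENNReal.ofReal ((v s) ^ 2) :=
            ENNReal.le_tsum (f := fun s : (frontier T ∩ Ioi 0 : Set ℝ) =>
              ENNReal.ofReal ((v s) ^ 2)) ⟨sSup T, hfr, hpos⟩
        _ ≤ colR k v T := by
            unfold colR
            exact le_add_self
  · rintro ⟨δ, hδ, hδT⟩ hU
    set P : Set ℝ := {s | Ioo 0 s ⊆ T} with hP
    have hδP : δ ∈ P := hδT
    have hPb : ∀ s ∈ P, s ≤ S := by
      intro s hs
      by_contra hcon
      push Not at hcon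
      have h1 : max ((S + s) / 2) (s / 2) ∈ Ioo 0 s := by
        constructor
        · have : 0 < s := by linarith
          exact lt_of_lt_of_le (by linarith) (le_max_right _ _)
        · apply max_lt <;> linarith
      have := (hTS (hs h1)).2
      have h2 := le_max_left ((S + s) / 2) (s / 2)
      linarith
    have hPbdd : BddAbove P := ⟨S, hPb⟩
    set σ := sSup P with hσ
    have hσδ : δ ≤ σ := le_csSup hPbdd hδP
    have hσ0 : 0 < σ := lt_of_lt_of_le hδ hσδ
    have hσS : σ ≤ S := csSup_le ⟨δ, hδP⟩ hPb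
    have hσP : Ioo 0 σ ⊆ T := by
      intro x hx
      obtain ⟨s, hsP, hs⟩ := exists_lt_of_lt_csSup ⟨δ, hδP⟩ hx.2
      exact hsP ⟨hx.1, hs⟩
    have hσT : σ ∉ T := by
      intro h
      obtain ⟨ε, hε, hsub⟩ := Metric.isOpen_iff.1 hTo _ h
      have : σ + ε / 2 ∈ P := by
        intro x hx
        by_cases hxσ : x < σ
        · exact hσP ⟨hx.1, hxσ⟩
        · push Not at hxσ
          apply hsub
          rw [Metric.mem_ball, Real.dist_eq, abs_of_nonneg (by linarith)]
          linarith [hx.2]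
      have := le_csSup hPbdd this
      linarith
    have hσcl : σ ∈ closure T := by
      have : σ ∈ closure (Ioo 0 σ) := by
        rw [closure_Ioo hσ0.ne]
        exact ⟨hσ0.le, le_refl _⟩
      exact closure_mono hσP this
    have hσfr : σ ∈ frontier T := by
      rw [frontier, hTo.interior_eq]
      exact ⟨hσcl, hσT⟩
    have hκσ : κ * σ ≤ 1 / 2 := le_trans (mul_le_mul_of_nonneg_left hσS hκ0) hκS
    have hcol := hc k κ σ v hk1 hk2 hκ0 hκ1 hσ0.le hκσ hL hv hU
    change κ * σ ≤ (∫ t in (0 : ℝ)..σ, F k v t) + (v σ) ^ 2 - (v 0) ^ 2 at hcol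
    have hI0 : 0 ≤ ∫ t in (0 : ℝ)..σ, F k v t :=
      intervalIntegral.integral_nonneg hσ0.le fun t _ => F_nonneg hv t
    have hmain : ENNReal.ofReal ((v 0) ^ 2) + ENNReal.ofReal (κ * σ) ≤
        (∫⁻ s in T, ENNReal.ofReal (F k v s)) + ENNReal.ofReal ((v σ) ^ 2) := by
      calc ENNReal.ofReal ((v 0) ^ 2) + ENNReal.ofReal (κ * σ)
          = ENNReal.ofReal ((v 0) ^ 2 + κ * σ) :=
            (ENNReal.ofReal_add (sq_nonneg _) (by positivity)).symm
        _ ≤ ENNReal.ofReal ((∫ t in (0 : ℝ)..σ, F k v t) + (v σ) ^ 2) :=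
            ENNReal.ofReal_le_ofReal (by linarith)
        _ = ENNReal.ofReal (∫ t in (0 : ℝ)..σ, F k v t) + ENNReal.ofReal ((v σ) ^ 2) :=
            ENNReal.ofReal_add hI0 (sq_nonneg _)
        _ ≤ _ := by
            gcongr
            exact int_le hL hv hσ0.le hσP
    by_cases hcase : T ⊆ Icc 0 σ
    · calc ENNReal.ofReal ((v 0) ^ 2) + ENNReal.ofReal κ * volume T
          ≤ ENNReal.ofReal ((v 0) ^ 2) + ENNReal.ofReal (κ * σ) := by
            gcongr
            calc ENNReal.ofReal κ * volume T ≤ ENNReal.ofReal κ * ENNReal.ofReal (σ - 0) := by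
                  gcongr
                  exact vol_le hcase
              _ = ENNReal.ofReal (κ * σ) := by rw [sub_zero, ENNReal.ofReal_mul hκ0]
        _ ≤ (∫⁻ s in T, ENNReal.ofReal (F k v s)) + ENNReal.ofReal ((v σ) ^ 2) := hmain
        _ ≤ colR k v T := by
            unfold colR
            refine add_le_add (le_refl _) ?_
            exact ENNReal.le_tsum (f := fun s : (frontier T ∩ Ioi 0 : Set ℝ) =>
              ENNReal.ofReal ((v s) ^ 2)) ⟨σ, hσfr, hσ0⟩
    · obtain ⟨x, hxT, hxn⟩ := not_subset.1 hcase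
      have hxσ : σ < x := by
        by_contra hcon
        push Not at hcon
        exact hxn ⟨(hTS hxT).1.le, hcon⟩
      have hfr := csSup_mem_frontier hTo ⟨x, hxT⟩ hbdd
      have hlt : σ < sSup T := lt_of_lt_of_le hxσ (le_csSup hbdd hxT)
      have hsplit : volume T ≤ ENNReal.ofReal (σ - 0) + volume (T ∩ Icc σ S) := by
        calc volume T ≤ volume (Icc 0 σ ∪ (T ∩ Icc σ S)) := by
              apply measure_mono
              intro y hy
              by_cases hyσ : y ≤ σ
              · exact Or.inl ⟨(hTS hy).1.le, hyσ⟩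
              · push Not at hyσ
                exact Or.inr ⟨hy, hyσ.le, (hTS hy).2⟩
          _ ≤ volume (Icc 0 σ) + volume (T ∩ Icc σ S) := measure_union_le _ _
          _ = _ := by rw [Real.volume_Icc]
      have htwo : ENNReal.ofReal ((v σ) ^ 2) + ENNReal.ofReal ((v (sSup T)) ^ 2) ≤
          ∑' s : (frontier T ∩ Ioi 0 : Set ℝ), ENNReal.ofReal ((v s) ^ 2) := by
        have hne : (⟨σ, hσfr, hσ0⟩ : (frontier T ∩ Ioi 0 : Set ℝ)) ≠
            ⟨sSup T, hfr, hσ0.trans hlt⟩ := by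
          intro h
          have := congrArg Subtype.val h
          exact hlt.ne this
        have := ENNReal.sum_le_tsum (f := fun s : (frontier T ∩ Ioi 0 : Set ℝ) =>
          ENNReal.ofReal ((v s) ^ 2)) {⟨σ, hσfr, hσ0⟩, ⟨sSup T, hfr, hσ0.trans hlt⟩}
        rwa [Finset.sum_pair hne] at this
      calc ENNReal.ofReal ((v 0) ^ 2) + ENNReal.ofReal κ * volume T
          ≤ ENNReal.ofReal ((v 0) ^ 2) +
            ENNReal.ofReal κ * (ENNReal.ofReal (σ - 0) + volume (T ∩ Icc σ S)) := by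
            gcongr
        _ = (ENNReal.ofReal ((v 0) ^ 2) + ENNReal.ofReal (κ * σ)) +
            ENNReal.ofReal κ * volume (T ∩ Icc σ S) := by
            rw [sub_zero, mul_add, ← ENNReal.ofReal_mul hκ0, add_assoc]
        _ ≤ ((∫⁻ s in T, ENNReal.ofReal (F k v s)) + ENNReal.ofReal ((v σ) ^ 2)) +
            ENNReal.ofReal ((v (sSup T)) ^ 2) := by
            refine add_le_add hmain ?_
            exact le_trans (hκvol _ fun y hy => ⟨(hTS hy.1).1.le, hy.2.2⟩) (hterm _)
        _ = (∫⁻ s in T, ENNReal.ofReal (F k v s)) + (ENNReal.ofReal ((v σ) ^ 2) +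
            ENNReal.ofReal ((v (sSup T)) ^ 2)) := by rw [add_assoc]
        _ ≤ colR k v T := by
            unfold colR
            exact add_le_add (le_refl _) htwo

end Pool.Agent.Robin
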