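import Pool.Agent.Work.MP_4b551e_an.Stmts29

/-!
# MP_4b551e_an, item K7: all mouth points of a pocket are on one supporting line
-/

open MeasureTheory Set Metric
open scoped ENNReal NNReal Pointwise RealInnerProductSpace

namespace Pool.Agent.Robin

namespace K7

theorem decomp (ν : E2) (hν : ‖ν‖ = 1) (x : E2) : ⟪x, ν⟫ • ν + ⟪x, rot ν⟫ • rot ν = x := by
  have h1 : (ν 0) ^ 2 + (ν 1) ^ 2 = 1 := by
    have := EuclideanSpace.real_norm_sq_eq ν
    rw [hν] at this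
    simpa [Fin.sum_univ_two] using this.symm
  ext i
  rw [PiLp.inner_apply, PiLp.inner_apply]
  fin_cases i <;> simp [rot, Fin.sum_univ_two]
  · linear_combination (x 0) * h1
  · linear_combination (x 1) * h1

theorem norm_rot (ν : E2) : ‖rot ν‖ = ‖ν‖ := by
  have : ‖rot ν‖ ^ 2 = ‖ν‖ ^ 2 := by
    rw [EuclideanSpace.real_norm_sq_eq, EuclideanSpace.real_norm_sq_eq]
    simp [rot, Fin.sum_univ_two]
    ring
  exact (sq_eq_sq₀ (norm_nonneg _) (norm_nonneg _)).1 this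

theorem inner_rot_self (ν : E2) : ⟪rot ν, ν⟫ = 0 := by
  rw [PiLp.inner_apply]
  simp [rot, Fin.sum_univ_two]
  ring

theorem inner_self_rot (ν : E2) : ⟪ν, rot ν⟫ = 0 := by
  rw [real_inner_comm, inner_rot_self]

/-- horizontal coordinate -/
noncomputable def U (x₁ ν x : E2) : ℝ := ⟪x - x₁, rot ν⟫

/-- vertical coordinate -/
noncomputable def W (x₁ ν x : E2) : ℝ := ⟪x - x₁, ν⟫

theorem ext_UW {x₁ ν x y : E2} (hν : ‖ν‖ = 1) (hU : U x₁ ν x = U x₁ ν y)
    (hW : W x₁ ν x = W x₁ ν y) : x = y := by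
  have h1 := decomp ν hν (x - x₁)
  have h2 := decomp ν hν (y - x₁)
  unfold U at hU
  unfold W at hW
  rw [hU, hW, h2] at h1
  have := congrArg (· + x₁) h1
  simpa using this.symm

theorem abs_U_le {x₁ ν x : E2} (hν : ‖ν‖ = 1) : |U x₁ ν x| ≤ ‖x - x₁‖ := by
  have := abs_real_inner_le_norm (x - x₁) (rot ν)
  rwa [norm_rot, hν, mul_one] at this

theorem abs_W_le {x₁ ν x : E2} (hν : ‖ν‖ = 1) : |W x₁ ν x| ≤ ‖x - x₁‖ := by
  have := abs_real_inner_le_norm (x - x₁) ν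
  rwa [hν, mul_one] at this

/-- Crossing of two joined pairs. -/
theorem cross (CL : CrossLem) {x₁ ν : E2} (hν : ‖ν‖ = 1) {X0 Y1 : ℝ} (hX : 0 < X0)
    (hY : 0 < Y1) {SG SB : Set E2} (hSG : ∀ z ∈ SG, |U x₁ ν z| ≤ X0 ∧ |W x₁ ν z| ≤ Y1)
    (hSB : ∀ z ∈ SB, |U x₁ ν z| ≤ X0 ∧ |W x₁ ν z| ≤ Y1) {l r b t : E2}
    (hl : U x₁ ν l = -X0) (hr : U x₁ ν r = X0) (hb : W x₁ ν b = -Y1) (ht : W x₁ ν t = Y1)
    (jG : JoinedIn SG l r) (jB : JoinedIn SB b t) : ∃ z, z ∈ SG ∧ z ∈ SB := by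
  obtain ⟨p, hp⟩ := jG
  obtain ⟨q, hq⟩ := jB
  set F : E2 → E2 := fun x => !₂[U x₁ ν x, W x₁ ν x] with hF
  have hFc : Continuous F := by
    rw [hF]; unfold U W
    refine (PiLp.continuous_toLp 2 _).comp (continuous_pi fun i => ?_)
    fin_cases i <;> simp <;> fun_prop
  have hF0 : ∀ x, F x 0 = U x₁ ν x := fun x => by simp [hF]
  have hF1 : ∀ x, F x 1 = W x₁ ν x := fun x => by simp [hF]
  have hpe : ∀ s, p.extend s ∈ SG := by
    intro s
    have : p.extend s ∈ range p := by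
      rw [← p.extend_range]; exact mem_range_self s
    obtain ⟨u, hu⟩ := this
    rw [← hu]; exact hp u
  have hqe : ∀ s, q.extend s ∈ SB := by
    intro s
    have : q.extend s ∈ range q := by
      rw [← q.extend_range]; exact mem_range_self s
    obtain ⟨u, hu⟩ := this
    rw [← hu]; exact hq u
  obtain ⟨s, -, u, -, hsu⟩ := CL X0 Y1 (fun s => F (p.extend s)) (fun s => F (q.extend s)) hX hY
    (hFc.comp p.continuous_extend).continuousOn (hFc.comp q.continuous_extend).continuousOn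
    (fun s _ => by rw [hF0, hF1]; exact hSG _ (hpe s))
    (fun s _ => by rw [hF0, hF1]; exact hSB _ (hqe s))
    (by rw [hF0, p.extend_zero]; exact hl) (by rw [hF0, p.extend_one]; exact hr)
    (by rw [hF1, q.extend_zero]; exact hb) (by rw [hF1, q.extend_one]; exact ht)
  have h1 : U x₁ ν (p.extend s) = U x₁ ν (q.extend u) := by
    rw [← hF0, ← hF0]; exact congrFun (congrArg _ hsu) 0
  have h2 : W x₁ ν (p.extend s) = W x₁ ν (q.extend u) := by
    rw [← hF1, ← hF1]; exact congrFun (congrArg _ hsu) 1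
  have h3 := ext_UW hν h1 h2
  exact ⟨p.extend s, hpe s, by rw [h3]; exact hqe u⟩

theorem U_add (x₁ ν x v : E2) : U x₁ ν (x + v) = U x₁ ν x + ⟪v, rot ν⟫ := by
  unfold U
  rw [← inner_add_left]; congr 1; abel

theorem W_add (x₁ ν x v : E2) : W x₁ ν (x + v) = W x₁ ν x + ⟪v, ν⟫ := by
  unfold W
  rw [← inner_add_left]; congr 1; abel

theorem U_smul (x₁ ν x v : E2) (s : ℝ) :
    U x₁ ν (x + s • v) = U x₁ ν x + s * ⟪v, rot ν⟫ := by
  rw [U_add, real_inner_smul_left]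

theorem W_smul (x₁ ν x v : E2) (s : ℝ) :
    W x₁ ν (x + s • v) = W x₁ ν x + s * ⟪v, ν⟫ := by
  rw [W_add, real_inner_smul_left]

theorem mem_seg_iff (x y z : E2) : z ∈ segment ℝ x y ↔ ∃ θ ∈ Icc (0 : ℝ) 1, z = x + θ • (y - x) := by
  rw [segment_eq_image']
  constructor
  · rintro ⟨θ, hθ, rfl⟩; exact ⟨θ, hθ, rfl⟩
  · rintro ⟨θ, hθ, rfl⟩; exact ⟨θ, hθ, rfl⟩

theorem seg_int {H : Set E2} (hv : Convex ℝ H) {x y z : E2} (hy : y ∈ interior H) (hx : x ∈ H)
    (hz : z ∈ segment ℝ x y) (hne : z ≠ x) : z ∈ interior H := by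
  rw [← insert_endpoints_openSegment] at hz
  rcases hz with h | h | h
  · exact absurd h hne
  · rw [h]; exact hy
  · rw [openSegment_symm] at h
    exact hv.openSegment_interior_self_subset_interior hy hx h

theorem normal {H : Set E2} (hv : Convex ℝ H) {x : E2} (hx : x ∉ interior H)
    (hi : (interior H).Nonempty) : ∃ n : E2, ‖n‖ = 1 ∧ ∀ y ∈ H, ⟪y - x, n⟫ ≤ 0 := by
  obtain ⟨f, hf, hfx⟩ := geometric_hahn_banach_of_nonempty_interior_point hv hx hi
  set w := (InnerProductSpace.toDual ℝ E2).symm f with hw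
  have hwf : ∀ y, ⟪w, y⟫ = f y := fun y => by
    rw [hw]; exact InnerProductSpace.toDual_symm_apply
  have hw0 : w ≠ 0 := by
    intro h
    apply hf
    ext y
    rw [← hwf y, h]; simp
  have hwn : 0 < ‖w‖ := norm_pos_iff.2 hw0
  refine ⟨‖w‖⁻¹ • w, ?_, ?_⟩
  · rw [norm_smul, norm_inv, norm_norm, inv_mul_cancel₀ hwn.ne']
  · intro y hy
    rw [real_inner_smul_right, real_inner_comm, inner_sub_right, hwf, hwf]
    have := hfx y hy
    have h2 : 0 < ‖w‖⁻¹ := inv_pos.2 hwn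
    nlinarith

theorem main (CL : CrossLem) (h0 : T_K0) (h2 : T_K2) (h4 : T_K4) (G Q : Set E2)
    (x₁ x₂ ν : E2) (hGo : IsOpen G) (hGc : IsConnected G) (hGb : Bornology.IsBounded G)
    (hQ : Pocket G Q) (hm1 : x₁ ∈ mouth G Q) (hm2 : x₂ ∈ mouth G Q) (hSup : Sup G x₁ ν) :
    ⟪x₂ - x₁, ν⟫ = 0 := by
  obtain ⟨hQo, hQe, hQc, hHc, hHv, hHi, hGi, -, -⟩ := h2 G Q hGo hGc.nonempty hGb hQ
  set H := hull G with hH
  have hν := hSup.1
  have hcl : closure G ⊆ H := subset_convexHull ℝ _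
  have hHcl : IsClosed H := hHc.isClosed
  have hx1H : x₁ ∈ H := hHcl.frontier_subset hm1.2.1
  have hx2H : x₂ ∈ H := hHcl.frontier_subset hm2.2.1
  have hx1c : x₁ ∉ closure G := hm1.2.2
  have hx2i : x₂ ∉ interior H := by
    have := hm2.2.1
    rw [frontier] at this
    exact this.2
  have hWH : ∀ z ∈ H, W x₁ ν z ≤ 0 := fun z hz => hSup.2.2 z hz
  by_contra hne
  have hW2 : W x₁ ν x₂ < 0 := lt_of_le_of_ne (hWH x₂ hx2H) hne
  have hνν : ⟪ν, ν⟫ = 1 := by rw [real_inner_self_eq_norm_sq, hν]; norm_num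
  have hrr : ⟪rot ν, rot ν⟫ = 1 := by rw [real_inner_self_eq_norm_sq, norm_rot, hν]; norm_num
  have hU1 : U x₁ ν x₁ = 0 := by unfold U; simp
  have hW1 : W x₁ ν x₁ = 0 := by unfold W; simp
  have hUν : ∀ x s, U x₁ ν (x + s • ν) = U x₁ ν x := fun x s => by
    rw [U_smul, inner_self_rot]; ring
  have hWν : ∀ x s, W x₁ ν (x + s • ν) = W x₁ ν x + s := fun x s => by
    rw [W_smul, hνν]; ring
  have hUr : ∀ x s, U x₁ ν (x + s • rot ν) = U x₁ ν x + s := fun x s => by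
    rw [U_smul, hrr]; ring
  have hWr : ∀ x s, W x₁ ν (x + s • rot ν) = W x₁ ν x := fun x s => by
    rw [W_smul, inner_rot_self]; ring
  -- the points a and b
  obtain ⟨a, b, hac, hbc, hUa, hUb, hWa, hWb⟩ : ∃ a b, a ∈ closure G ∧ b ∈ closure G ∧
      U x₁ ν a < 0 ∧ 0 < U x₁ ν b ∧ W x₁ ν a = 0 ∧ W x₁ ν b = 0 := by
    obtain ⟨a, hac, b, hbc, hseg, haW, hbW, hab⟩ := h0 G x₁ ν hGb hx1c hSup
    obtain ⟨s, t, hs, ht, hst, hx⟩ := hseg
    have hz : s * U x₁ ν a + t * U x₁ ν b = 0 := by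
      unfold U
      rw [← real_inner_smul_left, ← real_inner_smul_left, ← inner_add_left]
      have : s • (a - x₁) + t • (b - x₁) = 0 := by
        rw [smul_sub, smul_sub]
        have h3 : s • x₁ + t • x₁ = x₁ := by rw [← add_smul, hst, one_smul]
        calc s • a - s • x₁ + (t • b - t • x₁) = (s • a + t • b) - (s • x₁ + t • x₁) := by abel
          _ = 0 := by rw [hx, h3, sub_self]
      rw [this, inner_zero_left]
    have haW' : W x₁ ν a = 0 := haW
    have hbW' : W x₁ ν b = 0 := hbW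
    have hne' : U x₁ ν a ≠ 0 := by
      intro h
      have h3 : U x₁ ν b = 0 := by
        rw [h] at hz
        have : t * U x₁ ν b = 0 := by linarith
        exact (mul_eq_zero.1 this).resolve_left ht.ne'
      exact hab (ext_UW hν (h.trans h3.symm) (haW'.trans hbW'.symm))
    rcases lt_or_gt_of_ne hne' with h | h
    · exact ⟨a, b, hac, hbc, h, by nlinarith, haW', hbW'⟩
    · exact ⟨b, a, hbc, hac, by nlinarith, h, hbW', haW'⟩
  -- a bound
  obtain ⟨M, hM, hHM⟩ := hHc.isBounded.subset_closedBall_lt 0 x₁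
  have hUM : ∀ z ∈ H, |U x₁ ν z| ≤ M := fun z hz => (abs_U_le hν).trans (by
    have := hHM hz; rwa [mem_closedBall, dist_eq_norm] at this)
  have hWM : ∀ z ∈ H, |W x₁ ν z| ≤ M := fun z hz => (abs_W_le hν).trans (by
    have := hHM hz; rwa [mem_closedBall, dist_eq_norm] at this)
  -- interior points are below
  have hint : ∀ z ∈ interior H, W x₁ ν z < 0 := by
    intro z hz
    obtain ⟨δ, hδ, hb⟩ := Metric.isOpen_iff.1 isOpen_interior z hz
    have h3 : z + (δ / 2) • ν ∈ H := by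
      apply interior_subset
      apply hb
      rw [mem_ball, dist_eq_norm, add_sub_cancel_left, norm_smul, hν, mul_one,
        Real.norm_of_nonneg (by linarith)]
      linarith
    have h4 := hWH _ h3
    rw [hWν] at h4
    linarith
  -- entry points
  have hentry : ∀ x ∈ mouth G Q, ∃ y ∈ Q, (∀ z ∈ segment ℝ x y, z ∉ closure G ∧ z ∈ H ∧
      (z ≠ x → z ∈ interior H)) := by
    intro x hx
    obtain ⟨ε, hε, hb, hd⟩ := (h4 G hGo hGc.nonempty hGb).2.1 Q hQ x hx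
    have hxH : x ∈ H := hHcl.frontier_subset hx.2.1
    have hxc : x ∈ closure (interior H) := by
      rw [hHv.closure_interior_eq_closure_of_nonempty_interior hHi]
      exact subset_closure hxH
    obtain ⟨y, hy, hxy⟩ := Metric.mem_closure_iff.1 hxc ε hε
    have hyb : y ∈ ball x ε := by rw [mem_ball, dist_comm]; exact hxy
    refine ⟨y, hb ⟨hyb, hy⟩, fun z hz => ⟨?_, ?_, ?_⟩⟩
    · have : z ∈ ball x ε := (convex_ball x ε).segment_subset (mem_ball_self hε) hyb hz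
      exact fun h => Set.disjoint_left.1 hd this h
    · exact hHv.segment_subset hxH (interior_subset hy) hz
    · exact fun hne => seg_int hHv hy hxH hz hne
  obtain ⟨y1, hy1Q, hs1⟩ := hentry x₁ hm1
  obtain ⟨y2, hy2Q, hs2⟩ := hentry x₂ hm2
  have hQp : IsPathConnected Q := (hQo.isConnected_iff_isPathConnected).1 hQc
  obtain ⟨p, hp⟩ := hQp.joinedIn y1 hy1Q y2 hy2Q
  have hQH : ∀ z ∈ Q, z ∈ interior H ∧ z ∉ closure G := fun z hz => hQe hz
  set B0 : Set E2 := segment ℝ x₁ y1 ∪ range p ∪ segment ℝ x₂ y2 with hB0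
  have hB0c : IsCompact B0 := by
    have hsc : ∀ x y : E2, IsCompact (segment ℝ x y) := by
      intro x y
      rw [segment_eq_image']
      exact isCompact_Icc.image (by fun_prop)
    exact ((hsc _ _).union (isCompact_range p.continuous)).union (hsc _ _)
  have hB0H : ∀ z ∈ B0, z ∈ H := by
    rintro z ((hz | ⟨u, rfl⟩) | hz)
    · exact (hs1 z hz).2.1
    · exact interior_subset (hQH _ (hp u)).1
    · exact (hs2 z hz).2.1
  have hB0G : ∀ z ∈ B0, z ∉ closure G := by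
    rintro z ((hz | ⟨u, rfl⟩) | hz)
    · exact (hs1 z hz).1
    · exact (hQH _ (hp u)).2
    · exact (hs2 z hz).1
  have hx1B : x₁ ∈ B0 := Or.inl (Or.inl (left_mem_segment ℝ x₁ y1))
  have hx2B : x₂ ∈ B0 := Or.inr (left_mem_segment ℝ x₂ y2)
  obtain ⟨δ, hδ, hdis⟩ := (Set.disjoint_left.2 hB0G).exists_thickenings hB0c
    (isClosed_closure (s := G))
  have hnear : ∀ c ∈ closure G, ∀ z, dist z c < δ → z ∉ B0 := by
    intro c hc z hz hzB
    exact Set.disjoint_left.1 hdis (self_subset_thickening hδ _ hzB)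
      (mem_thickening_iff.2 ⟨c, hc, hz⟩)
  -- the normal at x₂
  obtain ⟨n, hn, hnH⟩ := normal hHv hx2i hHi
  have hnn : ⟪n, n⟫ = 1 := by rw [real_inner_self_eq_norm_sq, hn]; norm_num
  have hq1 : |⟪n, ν⟫| ≤ 1 := by
    have := abs_real_inner_le_norm n ν
    rwa [hn, hν, mul_one] at this
  have hp1 : |⟪n, rot ν⟫| ≤ 1 := by
    have := abs_real_inner_le_norm n (rot ν)
    rwa [hn, norm_rot, hν, mul_one] at this
  have hout : ∀ τ : ℝ, 0 < τ → x₂ + τ • n ∉ H := by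
    intro τ hτ h
    have := hnH _ h
    rw [add_sub_cancel_left, real_inner_smul_left, hnn] at this
    linarith
  obtain ⟨τ1, hτ1, hτ1'⟩ : ∃ τ1 : ℝ, 0 < τ1 ∧ ∀ τ : ℝ, 0 ≤ τ →
      (x₂ + τ1 • n + (-τ) • ν) ∉ H ∧
      (M < |U x₁ ν (x₂ + τ1 • n + (-τ) • ν)| ∨ W x₁ ν (x₂ + τ1 • n + (-τ) • ν) < 0) := by
    by_cases hp0 : ⟪n, rot ν⟫ = 0
    · have hdec := decomp ν hν n
      rw [hp0, zero_smul, add_zero] at hdec
      set q := ⟪n, ν⟫ with hq
      have hq2 : q * q = 1 := by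
        have h3 : ⟪q • ν, q • ν⟫ = 1 := by rw [hdec]; exact hnn
        rw [real_inner_smul_left, real_inner_smul_right, hνν] at h3
        linarith
      have hqm : q = -1 := by
        have h5 : (q - 1) * (q + 1) = 0 := by ring_nf; linarith
        rcases mul_eq_zero.1 h5 with h6 | h6
        · exfalso
          have hq3 : q = 1 := by linarith
          rw [hq3, one_smul] at hdec
          have h7 := hnH x₁ hx1H
          rw [← hdec] at h7
          have h8 : ⟪x₁ - x₂, ν⟫ = - W x₁ ν x₂ := by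
            unfold W
            rw [← inner_neg_left, neg_sub]
          rw [h8] at h7
          linarith
        · linarith
      have hnν : n = -ν := by rw [← hdec, hqm, neg_one_smul]
      refine ⟨1, one_pos, fun τ hτ => ⟨?_, Or.inr ?_⟩⟩
      · have h9 : x₂ + (1 : ℝ) • n + (-τ) • ν = x₂ + (1 + τ) • n := by
          rw [add_smul, hnν, smul_neg, smul_neg, neg_smul, add_assoc]
        rw [h9]
        exact hout _ (by linarith)
      · rw [hWν, W_smul, hnν, inner_neg_left, hνν]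
        linarith
    · have hpa : 0 < |⟪n, rot ν⟫| := abs_pos.2 hp0
      refine ⟨3 * M / |⟪n, rot ν⟫|, by positivity, fun τ hτ => ?_⟩
      have h9 : M < |U x₁ ν (x₂ + (3 * M / |⟪n, rot ν⟫|) • n + (-τ) • ν)| := by
        rw [hUν, U_smul]
        have h10 : |3 * M / |⟪n, rot ν⟫| * ⟪n, rot ν⟫| = 3 * M := by
          rw [abs_mul, abs_div, abs_abs, div_mul_cancel₀ _ hpa.ne', abs_of_pos (by linarith)]
        have h11 := hUM x₂ hx2H
        have h12 := abs_sub_abs_le_abs_sub (3 * M / |⟪n, rot ν⟫| * ⟪n, rot ν⟫) (- U x₁ ν x₂)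
        rw [h10, abs_neg, sub_neg_eq_add, add_comm (3 * M / |⟪n, rot ν⟫| * ⟪n, rot ν⟫)] at h12
        linarith
      exact ⟨fun h => absurd (hUM _ h) (not_le.2 h9), Or.inl h9⟩
  -- sizes
  set X0 := M + τ1 + 1 with hX0
  set Y1 := X0 + 1 with hY1
  have hX00 : 0 < X0 := by positivity
  have hY10 : 0 < Y1 := by positivity
  have hHX : ∀ z ∈ H, |U x₁ ν z| ≤ X0 ∧ |W x₁ ν z| ≤ Y1 := fun z hz =>
    ⟨(hUM z hz).trans (by rw [hX0]; linarith), (hWM z hz).trans (by rw [hY1, hX0]; linarith)⟩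
  set SG : Set E2 := {z | (|U x₁ ν z| ≤ X0 ∧ |W x₁ ν z| ≤ Y1) ∧
    ((W x₁ ν z = X0 ∧ U x₁ ν z ≠ 0) ∨
      (∃ c ∈ closure G, U x₁ ν c ≠ 0 ∧ W x₁ ν c = 0 ∧ ∃ τ : ℝ, 0 ≤ τ ∧ z = c + τ • ν) ∨
      (z ∈ H ∧ z ∉ B0))} with hSG
  set SB : Set E2 := {z | (|U x₁ ν z| ≤ X0 ∧ |W x₁ ν z| ≤ Y1) ∧
    ((U x₁ ν z = 0 ∧ 0 ≤ W x₁ ν z) ∨ z ∈ B0 ∨
      ((∃ τ : ℝ, 0 < τ ∧ z = x₂ + τ • n) ∧ W x₁ ν z < X0) ∨
      (z ∉ H ∧ W x₁ ν z < X0 ∧ (M < |U x₁ ν z| ∨ W x₁ ν z < 0)))} with hSB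
  -- connections of the first kind
  have hjc : ∀ c ∈ closure G, U x₁ ν c ≠ 0 → W x₁ ν c = 0 → ∀ s : ℝ, 0 ≤ s * U x₁ ν c →
      |U x₁ ν c + s| ≤ X0 → JoinedIn SG c (c + X0 • ν + s • rot ν) := by
    intro c hc hU hW s hs hb
    have hcH := hcl hc
    have j1 : JoinedIn SG c (c + X0 • ν) := by
      refine JoinedIn.of_segment_subset fun z hz => ?_
      rw [mem_seg_iff] at hz
      obtain ⟨θ, hθ, hz⟩ := hz
      rw [add_sub_cancel_left, smul_smul] at hz
      have hzU : U x₁ ν z = U x₁ ν c := by rw [hz, hUν]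
      have hzW : W x₁ ν z = θ * X0 := by rw [hz, hWν, hW, zero_add]
      have h3 : 0 ≤ θ * X0 := mul_nonneg hθ.1 hX00.le
      have h4 : θ * X0 ≤ X0 := mul_le_of_le_one_left hX00.le hθ.2
      refine ⟨⟨by rw [hzU]; exact (hHX c hcH).1, ?_⟩, Or.inr (Or.inl ⟨c, hc, hU, hW, _, h3, hz⟩)⟩
      rw [hzW, abs_of_nonneg h3]; linarith
    have j2 : JoinedIn SG (c + X0 • ν) (c + X0 • ν + s • rot ν) := by
      refine JoinedIn.of_segment_subset fun z hz => ?_
      rw [mem_seg_iff] at hz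
      obtain ⟨θ, hθ, hz⟩ := hz
      rw [add_sub_cancel_left, smul_smul] at hz
      have hzU : U x₁ ν z = U x₁ ν c + θ * s := by rw [hz, hUr, hUν]
      have hzW : W x₁ ν z = X0 := by rw [hz, hWr, hWν, hW, zero_add]
      refine ⟨⟨?_, ?_⟩, Or.inl ⟨hzW, ?_⟩⟩
      · rw [hzU]
        have h3 : U x₁ ν c + θ * s = (1 - θ) * U x₁ ν c + θ * (U x₁ ν c + s) := by ring
        rw [h3]
        have h4 := (hHX c hcH).1
        rw [abs_le] at h4 hb ⊢
        have h5 := hθ.1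
        have h6 : 0 ≤ 1 - θ := by linarith [hθ.2]
        constructor <;> nlinarith
      · rw [hzW, abs_of_pos hX00]; linarith
      · rw [hzU]
        intro h3
        have h4 : (U x₁ ν c + θ * s) * U x₁ ν c = 0 := by rw [h3, zero_mul]
        have h5 : 0 < U x₁ ν c * U x₁ ν c := mul_self_pos.2 hU
        have h6 : 0 ≤ θ * (s * U x₁ ν c) := mul_nonneg hθ.1 hs
        nlinarith
    exact j1.trans j2
  have hjg : ∀ c ∈ closure G, ∃ g ∈ G, JoinedIn SG c g := by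
    intro c hc
    obtain ⟨g, hg, hcg⟩ := Metric.mem_closure_iff.1 hc δ hδ
    refine ⟨g, hg, JoinedIn.of_segment_subset fun z hz => ?_⟩
    have hzH : z ∈ H := hHv.segment_subset (hcl hc) (hcl (subset_closure hg)) hz
    refine ⟨hHX z hzH, Or.inr (Or.inr ⟨hzH, hnear c hc z ?_⟩)⟩
    have : z ∈ ball c δ := (convex_ball c δ).segment_subset (mem_ball_self hδ)
      (by rw [mem_ball, dist_comm]; exact hcg) hz
    exact this
  obtain ⟨ga, hga, hjga⟩ := hjg a hac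
  obtain ⟨gb, hgb, hjgb⟩ := hjg b hbc
  have hGp : IsPathConnected G := (hGo.isConnected_iff_isPathConnected).1 hGc
  have hGSG : G ⊆ SG := fun z hz =>
    ⟨hHX z (hcl (subset_closure hz)), Or.inr (Or.inr ⟨hcl (subset_closure hz),
      fun h => hB0G z h (subset_closure hz)⟩)⟩
  have hjab : JoinedIn SG ga gb := (hGp.joinedIn ga hga gb hgb).mono hGSG
  have hUaM := abs_le.1 (hUM a (hcl hac))
  have hUbM := abs_le.1 (hUM b (hcl hbc))
  have hja := hjc a hac hUa.ne hWa (-X0 - U x₁ ν a) (by nlinarith) (by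
    have : U x₁ ν a + (-X0 - U x₁ ν a) = -X0 := by ring
    rw [this, abs_neg, abs_of_pos hX00])
  have hjb := hjc b hbc hUb.ne' hWb (X0 - U x₁ ν b) (by nlinarith) (by
    have : U x₁ ν b + (X0 - U x₁ ν b) = X0 := by ring
    rw [this, abs_of_pos hX00])
  have jG := ((hja.symm.trans hjga).trans hjab).trans (hjgb.symm.trans hjb)
  -- connections of the second kind
  set e := x₂ + τ1 • n with he
  have hWe : |W x₁ ν e| ≤ M + τ1 := by
    rw [he, W_smul]
    have h3 := hWM x₂ hx2H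
    rw [abs_le] at h3 hq1 ⊢
    constructor <;> nlinarith
  have hUe : |U x₁ ν e| ≤ M + τ1 := by
    rw [he, U_smul]
    have h3 := hUM x₂ hx2H
    rw [abs_le] at h3 hp1 ⊢
    constructor <;> nlinarith
  have hWe' := abs_le.1 hWe
  have k1 : JoinedIn SB e (e + (-(W x₁ ν e + Y1)) • ν) := by
    refine JoinedIn.of_segment_subset fun z hz => ?_
    rw [mem_seg_iff] at hz
    obtain ⟨θ, hθ, hz⟩ := hz
    rw [add_sub_cancel_left, smul_smul] at hz
    have hzU : U x₁ ν z = U x₁ ν e := by rw [hz, hUν]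
    have hzW : W x₁ ν z = W x₁ ν e - θ * (W x₁ ν e + Y1) := by rw [hz, hWν]; ring
    have h3 : 0 ≤ W x₁ ν e + Y1 := by rw [hY1, hX0]; linarith
    have h4 : 0 ≤ θ * (W x₁ ν e + Y1) := mul_nonneg hθ.1 h3
    have h5 : θ * (W x₁ ν e + Y1) ≤ W x₁ ν e + Y1 := mul_le_of_le_one_left h3 hθ.2
    have h6 := hτ1' (θ * (W x₁ ν e + Y1)) h4
    have h7 : e + (-(θ * (W x₁ ν e + Y1))) • ν = z := by
      rw [hz]; congr 2; ring
    rw [h7] at h6
    refine ⟨⟨?_, ?_⟩, Or.inr (Or.inr (Or.inr ⟨h6.1, ?_, h6.2⟩))⟩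
    · rw [hzU]; rw [hX0]; linarith
    · rw [hzW, abs_le]; constructor
      · linarith
      · rw [hY1, hX0]; linarith
    · rw [hzW, hX0]; linarith
  have k2 : JoinedIn SB x₂ e := by
    refine JoinedIn.of_segment_subset fun z hz => ?_
    rw [mem_seg_iff] at hz
    obtain ⟨θ, hθ, hz⟩ := hz
    rw [he, add_sub_cancel_left, smul_smul] at hz
    have h3 : 0 ≤ θ * τ1 := mul_nonneg hθ.1 hτ1.le
    have h4 : θ * τ1 ≤ τ1 := mul_le_of_le_one_left hτ1.le hθ.2
    have h5 := abs_le.1 (hWM x₂ hx2H)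
    have h6 := abs_le.1 (hUM x₂ hx2H)
    have hq1' := abs_le.1 hq1
    have hp1' := abs_le.1 hp1
    have h7 : |θ * τ1 * ⟪n, ν⟫| ≤ τ1 := by
      rw [abs_mul, abs_of_nonneg h3]
      nlinarith [abs_nonneg ⟪n, ν⟫]
    have h8 : |θ * τ1 * ⟪n, rot ν⟫| ≤ τ1 := by
      rw [abs_mul, abs_of_nonneg h3]
      nlinarith [abs_nonneg ⟪n, rot ν⟫]
    rw [abs_le] at h7 h8
    have hzW : W x₁ ν z = W x₁ ν x₂ + θ * τ1 * ⟪n, ν⟫ := by rw [hz, W_smul]
    have hzU : U x₁ ν z = U x₁ ν x₂ + θ * τ1 * ⟪n, rot ν⟫ := by rw [hz, U_smul]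
    refine ⟨⟨?_, ?_⟩, ?_⟩
    · rw [hzU, abs_le, hX0]; constructor <;> linarith
    · rw [hzW, abs_le, hY1, hX0]; constructor <;> linarith
    · rcases eq_or_lt_of_le h3 with h9 | h9
      · right; left
        rw [hz, ← h9, zero_smul, add_zero]; exact hx2B
      · right; right; left
        exact ⟨⟨_, h9, hz⟩, by rw [hzW, hX0]; linarith⟩
  have hB0SB : B0 ⊆ SB := fun z hz => ⟨hHX z (hB0H z hz), Or.inr (Or.inl hz)⟩
  have k3 : JoinedIn SB x₂ y2 := JoinedIn.of_segment_subset fun z hz => hB0SB (Or.inr hz)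
  have k4 : JoinedIn SB y1 y2 := ⟨p, fun u => hB0SB (Or.inl (Or.inr ⟨u, rfl⟩))⟩
  have k5 : JoinedIn SB x₁ y1 := JoinedIn.of_segment_subset fun z hz =>
    hB0SB (Or.inl (Or.inl hz))
  have k6 : JoinedIn SB x₁ (x₁ + Y1 • ν) := by
    refine JoinedIn.of_segment_subset fun z hz => ?_
    rw [mem_seg_iff] at hz
    obtain ⟨θ, hθ, hz⟩ := hz
    rw [add_sub_cancel_left, smul_smul] at hz
    have hzU : U x₁ ν z = 0 := by rw [hz, hUν, hU1]
    have hzW : W x₁ ν z = θ * Y1 := by rw [hz, hWν, hW1, zero_add]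
    have h3 : 0 ≤ θ * Y1 := mul_nonneg hθ.1 hY10.le
    have h4 : θ * Y1 ≤ Y1 := mul_le_of_le_one_left hY10.le hθ.2
    refine ⟨⟨by rw [hzU, abs_zero]; exact hX00.le, by rw [hzW, abs_of_nonneg h3]; exact h4⟩,
      Or.inl ⟨hzU, by rw [hzW]; exact h3⟩⟩
  have jB : JoinedIn SB (e + (-(W x₁ ν e + Y1)) • ν) (x₁ + Y1 • ν) :=
    (((k1.symm.trans k2.symm).trans k3).trans k4.symm).trans (k5.symm.trans k6)
  -- crossing
  obtain ⟨z, hzG, hzB⟩ := cross CL (x₁ := x₁) hν hX00 hY10 (fun z hz => hz.1) (fun z hz => hz.1)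
    (by rw [hUr, hUν]; ring) (by rw [hUr, hUν]; ring) (by rw [hWν]; ring)
    (by rw [hWν, hW1, zero_add]) jG jB
  have hW0 : ∀ z, z ∈ H → 0 ≤ W x₁ ν z → W x₁ ν z = 0 := fun z hz h => le_antisymm (hWH z hz) h
  have hB0W : ∀ z ∈ B0, 0 ≤ W x₁ ν z → z = x₁ := by
    rintro z ((hz | ⟨u, rfl⟩) | hz) hw
    · by_contra hne'
      have := hint z ((hs1 z hz).2.2 hne')
      linarith
    · have := hint _ (hQH _ (hp u)).1
      linarith
    · by_cases hz2 : z = x₂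
      · rw [hz2] at hw; linarith
      · have := hint z ((hs2 z hz).2.2 hz2)
        linarith
  obtain ⟨-, hzG⟩ := hzG
  obtain ⟨-, hzB⟩ := hzB
  rcases hzG with ⟨hg1, hg2⟩ | ⟨c, hc, hcU, hcW, τ, hτ, hzc⟩ | ⟨hg1, hg2⟩
  · rcases hzB with ⟨hb1, -⟩ | hb1 | ⟨-, hb2⟩ | ⟨-, hb2, -⟩
    · exact hg2 hb1
    · have := hWH z (hB0H z hb1)
      linarith
    · linarith
    · linarith
  · have hzU : U x₁ ν z = U x₁ ν c := by rw [hzc, hUν]
    have hzW : W x₁ ν z = τ := by rw [hzc, hWν, hcW, zero_add]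
    rcases hzB with ⟨hb1, -⟩ | hb1 | ⟨⟨σ, hσ, hzσ⟩, -⟩ | ⟨-, -, hb3 | hb3⟩
    · exact hcU (hzU.symm.trans hb1)
    · have h3 := hW0 z (hB0H z hb1) (by rw [hzW]; exact hτ)
      rw [hzW] at h3
      rw [h3, zero_smul, add_zero] at hzc
      exact hB0G z hb1 (by rw [hzc]; exact hc)
    · have h3 := hnH c (hcl hc)
      have h4 : c - x₂ = σ • n - τ • ν := by
        have : c + τ • ν = x₂ + σ • n := hzc.symm.trans hzσ
        rw [eq_sub_of_add_eq this]; abel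
      rw [h4, inner_sub_left, real_inner_smul_left, real_inner_smul_left, hnn,
        real_inner_comm] at h3
      have h5 : W x₁ ν x₂ + σ * ⟪n, ν⟫ = τ := by rw [← W_smul, ← hzσ, hzW]
      have hq1' := abs_le.1 hq1
      set q := ⟪n, ν⟫ with hq
      have h6 : τ < σ * q := by linarith
      have h7 : 0 < q := by
        by_contra hcon
        rw [not_lt] at hcon
        nlinarith
      nlinarith
    · rw [hzU] at hb3
      exact absurd (hUM c (hcl hc)) (not_le.2 hb3)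
    · rw [hzW] at hb3; linarith
  · rcases hzB with ⟨hb1, hb2⟩ | hb1 | ⟨⟨σ, hσ, hzσ⟩, -⟩ | ⟨hb1, -, -⟩
    · have h3 := hW0 z hg1 hb2
      have h4 : z = x₁ := ext_UW hν (hb1.trans hU1.symm) (h3.trans hW1.symm)
      exact hg2 (by rw [h4]; exact hx1B)
    · exact hg2 hb1
    · exact hout σ hσ (by rw [← hzσ]; exact hg1)
    · exact hb1 hg1

end K7

theorem pr_K7 (h0 : T_K0) (h2 : T_K2) (h4 : T_K4) : T_K7 := by
  intro CL G Q x₁ x₂ ν hGo hGc hGb hQ hm1 hm2 hSup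
  exact K7.main CL h0 h2 h4 G Q x₁ x₂ ν hGo hGc hGb hQ hm1 hm2 hSup

end Pool.Agent.Robin
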