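import Pool.Agent.Work.MP_4b551e_an.Stmts29

/-!
# MP_4b551e_an: item P8 (helper59)
-/

open MeasureTheory Set Metric
open scoped ENNReal NNReal Pointwise RealInnerProductSpace

namespace Pool.Agent.Robin

namespace P8

theorem norm_dirv (θ : ℝ) : ‖dirv θ‖ = 1 := by
  rw [EuclideanSpace.norm_eq, Real.sqrt_eq_one, Fin.sum_univ_two]
  simp [dirv, Real.cos_sq_add_sin_sq]

/-- Every unit vector is `dirv θ`. -/
theorem exists_dirv {n : E2} (hn : ‖n‖ = 1) : ∃ θ : ℝ, n = dirv θ := by
  rw [EuclideanSpace.norm_eq, Real.sqrt_eq_one, Fin.sum_univ_two] at hn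
  simp only [Real.norm_eq_abs, sq_abs] at hn
  set z : ℂ := ⟨n 0, n 1⟩ with hz
  have hz1 : ‖z‖ = 1 := by
    rw [Complex.norm_def, Complex.normSq_apply, Real.sqrt_eq_one]
    simp only [hz]
    nlinarith
  refine ⟨z.arg, ?_⟩
  have h := Complex.norm_mul_exp_arg_mul_I z
  rw [hz1, Complex.ofReal_one, one_mul, Complex.exp_mul_I] at h
  have h0 : Real.cos z.arg = n 0 := by
    have := congrArg Complex.re h
    simpa [hz, Complex.cos_ofReal_re, Complex.sin_ofReal_im, Complex.cos_ofReal_im,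
      Complex.sin_ofReal_re] using this
  have h1 : Real.sin z.arg = n 1 := by
    have := congrArg Complex.im h
    simpa [hz, Complex.cos_ofReal_re, Complex.sin_ofReal_im, Complex.cos_ofReal_im,
      Complex.sin_ofReal_re] using this
  ext i
  fin_cases i
  · simpa [dirv] using h0.symm
  · simpa [dirv] using h1.symm

theorem norm_dirv_sub (θ φ : ℝ) : ‖dirv θ - dirv φ‖ ≤ |θ - φ| := by
  have h1 : ‖dirv θ - dirv φ‖ ^ 2 = 2 * (1 - Real.cos (θ - φ)) := by
    rw [EuclideanSpace.norm_eq, Real.sq_sqrt (by positivity), Fin.sum_univ_two]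
    simp only [dirv, PiLp.sub_apply, Real.norm_eq_abs, sq_abs, Fin.isValue,
      Matrix.cons_val_zero, Matrix.cons_val_one]
    rw [Real.cos_sub]
    nlinarith [Real.cos_sq_add_sin_sq φ, Real.cos_sq_add_sin_sq θ]
  have h2 : 1 - (θ - φ) ^ 2 / 2 ≤ Real.cos (θ - φ) := Real.one_sub_sq_div_two_le_cos
  have h3 : ‖dirv θ - dirv φ‖ ^ 2 ≤ |θ - φ| ^ 2 := by
    rw [h1, sq_abs]
    linarith
  exact (pow_le_pow_iff_left₀ (norm_nonneg _) (abs_nonneg _) two_ne_zero).1 h3

/-- The support function. -/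
noncomputable def hC (C : Set E2) (n : E2) : ℝ := sSup ((fun x : E2 => ⟪x, n⟫) '' C)

theorem bdd {C : Set E2} (hc : IsCompact C) (n : E2) :
    BddAbove ((fun x : E2 => ⟪x, n⟫) '' C) :=
  (hc.image (by fun_prop)).bddAbove

theorem le_hC {C : Set E2} (hc : IsCompact C) {n x : E2} (hx : x ∈ C) : ⟪x, n⟫ ≤ hC C n :=
  le_csSup (bdd hc n) ⟨x, hx, rfl⟩

theorem hC_le {C : Set E2} (hne : C.Nonempty) {n : E2} {t : ℝ} (h : ∀ x ∈ C, ⟪x, n⟫ ≤ t) :
    hC C n ≤ t := by
  apply csSup_le (hne.image _)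
  rintro _ ⟨x, hx, rfl⟩
  exact h x hx

theorem rho_le {C : Set E2} (hc : IsCompact C) {ρ : ℝ} (hρ : 0 ≤ ρ) (hb : closedBall 0 ρ ⊆ C)
    {n : E2} (hn : ‖n‖ = 1) : ρ ≤ hC C n := by
  have hm : ρ • n ∈ C := hb (by
    rw [mem_closedBall, dist_zero_right, norm_smul, hn, Real.norm_of_nonneg hρ, mul_one])
  have := le_hC hc (n := n) hm
  rwa [real_inner_smul_left, real_inner_self_eq_norm_sq, hn, one_pow, mul_one] at this

theorem hC_le_rho {C : Set E2} (hne : C.Nonempty) {ρ : ℝ} (hb : C ⊆ closedBall 0 ρ)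
    {n : E2} (hn : ‖n‖ = 1) : hC C n ≤ ρ := by
  apply hC_le hne
  intro x hx
  have h1 := real_inner_le_norm x n
  have h2 := hb hx
  rw [mem_closedBall, dist_zero_right] at h2
  rw [hn, mul_one] at h1
  linarith

theorem hC_sub {C : Set E2} (hc : IsCompact C) (hne : C.Nonempty) {ρ : ℝ}
    (hb : C ⊆ closedBall 0 ρ) (n m : E2) : hC C n ≤ hC C m + ρ * ‖n - m‖ := by
  apply hC_le hne
  intro x hx
  have h1 := le_hC hc (n := m) hx
  have h2 := real_inner_le_norm x (n - m)
  have h3 := hb hx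
  rw [mem_closedBall, dist_zero_right] at h3
  have h4 : ⟪x, n⟫ = ⟪x, m⟫ + ⟪x, n - m⟫ := by rw [inner_sub_right]; ring
  rw [h4]
  have := mul_le_mul_of_nonneg_right h3 (norm_nonneg (n - m))
  linarith

theorem exists_unit {f : StrongDual ℝ E2} (hf : f ≠ 0) :
    ∃ (n : E2) (t : ℝ), ‖n‖ = 1 ∧ 0 < t ∧ ∀ x, f x = t * ⟪x, n⟫ := by
  set v := (InnerProductSpace.toDual ℝ E2).symm f with hv
  have hv0 : v ≠ 0 := by
    intro h
    apply hf
    rw [hv] at h
    simpa using h
  have hvn : 0 < ‖v‖ := norm_pos_iff.2 hv0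
  refine ⟨‖v‖⁻¹ • v, ‖v‖, ?_, hvn, ?_⟩
  · rw [norm_smul, norm_inv, norm_norm, inv_mul_cancel₀ hvn.ne']
  · intro x
    have h1 : f x = ⟪v, x⟫ := by
      rw [hv, InnerProductSpace.toDual_symm_apply]
    rw [h1, real_inner_smul_right, real_inner_comm]
    field_simp

/-- Decomposition of a unit vector. -/
theorem decomp (N : ℕ) (i : ℤ) (θ : ℝ) :
    Real.sin (dl N) • dirv θ = Real.sin ((i + 1) * dl N - θ) • nv N i +
      Real.sin (θ - i * dl N) • nv N (i + 1) := by
  have e1 : ((i : ℝ) + 1) * dl N - θ = dl N - (θ - i * dl N) := by ring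
  have e2 : (((i + 1 : ℤ) : ℝ)) * dl N = i * dl N + dl N := by push_cast; ring
  have e3 : dirv θ = dirv (i * dl N + (θ - i * dl N)) := by congr 1; ring
  unfold nv
  rw [e1, e2, e3]
  generalize θ - i * dl N = α
  generalize (i : ℝ) * dl N = x
  generalize dl N = d
  ext j
  fin_cases j
  · simp only [dirv, PiLp.smul_apply, PiLp.add_apply, smul_eq_mul, Fin.zero_eta, Fin.isValue,
      Matrix.cons_val_zero]
    rw [Real.cos_add, Real.cos_add, Real.sin_sub]
    ring
  · simp only [dirv, PiLp.smul_apply, PiLp.add_apply, smul_eq_mul, Fin.mk_one, Fin.isValue,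
      Matrix.cons_val_one, Matrix.cons_val_zero]
    rw [Real.sin_add, Real.sin_add, Real.sin_sub]
    ring

end P8

open P8 in
theorem pr_P8 (h7 : T_P7) : T_P8 := by
  intro C ρ₁ ρ₂ r₀ η N₀ hconv hcomp hb1 hb2 hr0 hr1 hη
  have hρ1 : 0 < ρ₁ := hr0.trans hr1
  have h0C : (0 : E2) ∈ C := hb1 (mem_closedBall_self hρ1.le)
  have hne : C.Nonempty := ⟨0, h0C⟩
  have hn0 : ‖dirv 0‖ = 1 := norm_dirv 0
  have hρ12 : ρ₁ ≤ ρ₂ := (rho_le hcomp hρ1.le hb1 hn0).trans (hC_le_rho hne hb2 hn0)
  have hρ2 : 0 < ρ₂ := hρ1.trans_le hρ12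
  -- choice of N
  obtain ⟨N, hNa, hNb⟩ : ∃ N : ℕ, max 8 N₀ ≤ N ∧ 9 * ρ₂ * (2 * Real.pi) ≤ 7 * η * N := by
    obtain ⟨M, hM⟩ := exists_nat_ge (9 * ρ₂ * (2 * Real.pi) / (7 * η))
    refine ⟨max (max 8 N₀) M, le_max_left _ _, ?_⟩
    rw [div_le_iff₀ (by positivity)] at hM
    have : (M : ℝ) ≤ ((max (max 8 N₀) M : ℕ) : ℝ) := by exact_mod_cast le_max_right _ _
    nlinarith
  have hN8 : 8 ≤ N := (le_max_left _ _).trans hNa
  have hN0 : N₀ ≤ N := (le_max_right _ _).trans hNa
  have hNpos : (0 : ℝ) < N := by exact_mod_cast (by omega : 0 < N)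
  have hd0 : 0 < dl N := by
    unfold dl
    have := Real.pi_pos
    positivity
  have hd1 : dl N ≤ 1 := by
    unfold dl
    rw [div_le_one hNpos]
    have h8 : (8 : ℝ) ≤ N := by exact_mod_cast hN8
    have := Real.pi_lt_d2
    linarith
  have hd2 : 9 * ρ₂ * dl N ≤ 7 * η := by
    unfold dl
    rw [mul_div_assoc', div_le_iff₀ hNpos]
    exact hNb
  have hdm : (N : ℝ) * dl N = 2 * Real.pi := by
    unfold dl
    field_simp
  have hnv : ∀ i, ‖nv N i‖ = 1 := fun i => norm_dirv _
  obtain ⟨c, hS, hch, hρc, hel⟩ := h7 N (fun i => hC C (nv N i) - r₀) (ρ₁ - r₀) hN8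
    (by
      intro i
      show hC C (nv N (i + N)) - r₀ = hC C (nv N i) - r₀
      have : nv N (i + N) = nv N i := by
        unfold nv
        have : (((i + (N : ℤ) : ℤ)) : ℝ) * dl N = i * dl N + 2 * Real.pi := by
          push_cast
          rw [add_mul, hdm]
        rw [this]
        unfold dirv
        rw [Real.cos_add_two_pi, Real.sin_add_two_pi]
      rw [this])
    (by linarith)
    (fun i => by
      have := rho_le hcomp hρ1.le hb1 (hnv i)
      linarith)
  have hch' : ∀ i, c i ≤ hC C (nv N i) - r₀ := hch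
  -- key inequality
  have key : ∀ y ∈ poly N c, ∀ n : E2, ‖n‖ = 1 → ⟪y, n⟫ ≤ hC C n - r₀ + η := by
    intro y hy n hn
    obtain ⟨θ, rfl⟩ := exists_dirv hn
    set i : ℤ := ⌊θ / dl N⌋ with hi
    have hi1 : i * dl N ≤ θ := by
      have := Int.floor_le (θ / dl N)
      rwa [← hi, le_div_iff₀ hd0] at this
    have hi2 : θ < (i + 1) * dl N := by
      have := Int.lt_floor_add_one (θ / dl N)
      rwa [← hi, div_lt_iff₀ hd0] at this
    set α := θ - i * dl N with hα
    set β := ((i : ℝ) + 1) * dl N - θ with hβ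
    have hαβ : α + β = dl N := by rw [hα, hβ]; ring
    have hα0 : 0 ≤ α := by rw [hα]; linarith
    have hβ0 : 0 ≤ β := by rw [hβ]; linarith
    have hdπ : dl N < Real.pi := by linarith [Real.pi_gt_three]
    have hsα : 0 ≤ Real.sin α := Real.sin_nonneg_of_nonneg_of_le_pi hα0 (by linarith)
    have hsβ : 0 ≤ Real.sin β := Real.sin_nonneg_of_nonneg_of_le_pi hβ0 (by linarith)
    set H := hC C (dirv θ) with hH
    have hH1 : ρ₁ ≤ H := rho_le hcomp hρ1.le hb1 hn
    have hH2 : H ≤ ρ₂ := hC_le_rho hne hb2 hn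
    have hci : c i ≤ H + ρ₂ * dl N - r₀ := by
      have h1 := hch' i
      have h2 := hC_sub hcomp hne hb2 (nv N i) (dirv θ)
      have h3 : ‖nv N i - dirv θ‖ ≤ dl N := by
        refine (norm_dirv_sub _ _).trans ?_
        rw [abs_le]
        constructor <;> linarith
      have := mul_le_mul_of_nonneg_left h3 hρ2.le
      linarith
    have hci' : c (i + 1) ≤ H + ρ₂ * dl N - r₀ := by
      have h1 := hch' (i + 1)
      have h2 := hC_sub hcomp hne hb2 (nv N (i + 1)) (dirv θ)
      have h3 : ‖nv N (i + 1) - dirv θ‖ ≤ dl N := by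
        refine (norm_dirv_sub _ _).trans ?_
        rw [abs_le]
        push_cast
        constructor <;> linarith
      have := mul_le_mul_of_nonneg_left h3 hρ2.le
      linarith
    have hM : 0 < H + ρ₂ * dl N - r₀ := by
      have : 0 < ρ₂ * dl N := by positivity
      linarith
    have hdec := decomp N i θ
    rw [← hα, ← hβ] at hdec
    have hin := congrArg (fun z : E2 => ⟪y, z⟫) hdec
    simp only [inner_add_right, real_inner_smul_right] at hin
    have hy1 := hy i
    have hy2 := hy (i + 1)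
    have hle : Real.sin (dl N) * ⟪y, dirv θ⟫ ≤
        (Real.sin β + Real.sin α) * (H + ρ₂ * dl N - r₀) := by
      rw [hin, add_mul]
      exact add_le_add (mul_le_mul_of_nonneg_left (hy1.trans hci) hsβ)
        (mul_le_mul_of_nonneg_left (hy2.trans hci') hsα)
    have hsin : Real.sin β + Real.sin α ≤ 2 * Real.sin (dl N / 2) := by
      have e : Real.sin β + Real.sin α = 2 * Real.sin (dl N / 2) * Real.cos ((β - α) / 2) := by
        have g : ∀ p q : ℝ, Real.sin (p + q) + Real.sin (p - q) =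
            2 * Real.sin p * Real.cos q := by
          intro p q
          rw [Real.sin_add, Real.sin_sub]
          ring
        have h := g (dl N / 2) ((β - α) / 2)
        rwa [show dl N / 2 + (β - α) / 2 = β by linarith,
          show dl N / 2 - (β - α) / 2 = α by linarith] at h
      rw [e]
      have h1 := Real.cos_le_one ((β - α) / 2)
      have h2 : 0 ≤ Real.sin (dl N / 2) :=
        Real.sin_nonneg_of_nonneg_of_le_pi (by linarith) (by linarith)
      nlinarith
    have hs2 : 0 < Real.sin (dl N / 2) := Real.sin_pos_of_pos_of_lt_pi (by linarith) (by linarith)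
    have hsd : Real.sin (dl N) = 2 * Real.sin (dl N / 2) * Real.cos (dl N / 2) := by
      rw [← Real.sin_two_mul]
      congr 1
      ring
    have hcos : 1 - (dl N / 2) ^ 2 / 2 ≤ Real.cos (dl N / 2) := Real.one_sub_sq_div_two_le_cos
    have hle2 : Real.cos (dl N / 2) * ⟪y, dirv θ⟫ ≤ H + ρ₂ * dl N - r₀ := by
      have h1 : 2 * Real.sin (dl N / 2) * (Real.cos (dl N / 2) * ⟪y, dirv θ⟫) ≤
          2 * Real.sin (dl N / 2) * (H + ρ₂ * dl N - r₀) := by
        calc 2 * Real.sin (dl N / 2) * (Real.cos (dl N / 2) * ⟪y, dirv θ⟫)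
            = Real.sin (dl N) * ⟪y, dirv θ⟫ := by rw [hsd]; ring
          _ ≤ (Real.sin β + Real.sin α) * (H + ρ₂ * dl N - r₀) := hle
          _ ≤ _ := mul_le_mul_of_nonneg_right hsin hM.le
      exact le_of_mul_le_mul_left h1 (by linarith)
    by_contra hcon
    push Not at hcon
    have hcp : 7 / 8 ≤ Real.cos (dl N / 2) := by nlinarith
    have hQ : 0 < H - r₀ + η := by linarith
    have h1 : Real.cos (dl N / 2) * (H - r₀ + η) < H + ρ₂ * dl N - r₀ := by
      refine lt_of_lt_of_le ?_ hle2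
      exact mul_lt_mul_of_pos_left hcon (by linarith)
    -- (1 - cos) (H - r₀) ≤ d²/8 ρ₂ ≤ d ρ₂ / 8
    have h2 : (1 - Real.cos (dl N / 2)) * (H - r₀) ≤ dl N / 8 * ρ₂ := by
      have ha : 1 - Real.cos (dl N / 2) ≤ dl N / 8 := by nlinarith
      have hb : 0 ≤ 1 - Real.cos (dl N / 2) := by linarith [Real.cos_le_one (dl N / 2)]
      have hc : H - r₀ ≤ ρ₂ := by linarith
      have hd : 0 ≤ H - r₀ := by linarith
      nlinarith
    nlinarith
  have hclosed : IsClosed (poly N c) := by
    have : poly N c = ⋂ i : ℤ, {x : E2 | ⟪x, nv N i⟫ ≤ c i} := by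
      ext x
      simp [poly]
    rw [this]
    exact isClosed_iInter fun i => isClosed_le (by fun_prop) continuous_const
  have h0p : (0 : E2) ∈ poly N c := by
    intro i
    rw [inner_zero_left]
    exact (hS.pos i).le
  refine ⟨N, c, hN0, hS, fun i => ⟨hρc i, ?_⟩, ?_, ?_, ?_⟩
  · have := hch' i
    have := hC_le_rho hne hb2 (hnv i)
    linarith
  · intro x hx i hi
    have h1 := le_hC hcomp (n := nv N i) hx
    have h2 : c i = hC C (nv N i) - r₀ := hel i hi
    linarith
  · intro x hx y hy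
    have hint : (interior C).Nonempty :=
      ⟨0, mem_interior.2 ⟨ball 0 ρ₁, ball_subset_closedBall.trans hb1, isOpen_ball,
        mem_ball_self hρ1⟩⟩
    obtain ⟨f, hf⟩ := geometric_hahn_banach_open_point hconv.interior isOpen_interior hx.2
    have hf0 : f ≠ 0 := by
      rintro rfl
      obtain ⟨a, ha⟩ := hint
      have := hf a ha
      simp at this
    obtain ⟨n, t, hn, ht, hfn⟩ := exists_unit hf0
    have hle : ∀ a ∈ C, ⟪a, n⟫ ≤ ⟪x, n⟫ := by
      intro a ha
      have hcl : a ∈ closure (interior C) := by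
        rw [hconv.closure_interior_eq_closure_of_nonempty_interior hint]
        exact subset_closure ha
      have : ∀ b ∈ closure (interior C), f b ≤ f x := by
        intro b hb
        have hcl' : IsClosed {b | f b ≤ f x} := isClosed_le f.continuous continuous_const
        exact closure_minimal (fun b hb => (hf b hb).le) hcl' hb
      have h1 := this a hcl
      rw [hfn, hfn] at h1
      exact le_of_mul_le_mul_left h1 ht
    have h1 := key y hy n hn
    have h2 : hC C n ≤ ⟪x, n⟫ := hC_le hne hle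
    have h3 := real_inner_le_norm (x - y) n
    rw [hn, mul_one, inner_sub_left] at h3
    linarith
  · intro x hx
    by_contra hxC
    obtain ⟨f, u, hfu, hux⟩ := geometric_hahn_banach_closed_point hconv hcomp.isClosed hxC
    have hf0 : f ≠ 0 := by
      rintro rfl
      have := hfu 0 h0C
      simp at this hux
      linarith
    obtain ⟨n, t, hn, ht, hfn⟩ := exists_unit hf0
    have h2 : hC C n ≤ u / t := by
      apply hC_le hne
      intro a ha
      have := hfu a ha
      rw [hfn] at this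
      rw [le_div_iff₀ ht]
      linarith
    have h2' : u / t < ⟪x, n⟫ := by
      rw [hfn] at hux
      rw [div_lt_iff₀ ht]
      linarith
    obtain ⟨y, hy, hyd⟩ := hclosed.exists_infDist_eq_dist ⟨0, h0p⟩ x
    have h1 := key y hy n hn
    have h3 := real_inner_le_norm (x - y) n
    rw [hn, mul_one, inner_sub_left] at h3
    rw [hyd, dist_eq_norm] at hx
    linarith

end Pool.Agent.Robin
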